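import Pool.Agent.H38.KL.Con4
import Pool.Agent.H44.KL.Mt

/-!
# Rectangle rule, alive steps and zero boxes (MP_a7460d_ag, necessity of the class condition)

* `rect_v`, `rect_u`: the rectangle rule.
* `alive_or`: every proper step of a matching which satisfies the rank conditions north-west of `(i,j)` is alive, or is a direct step
  from `C` to `R` over a box with defect zero south-east of `(i,j)`.
* `zero_box`: if `C → R` is irreducible, the ideal is homogeneous, there is a path with at least three dots from `c` to `r` through the box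
  `(i,j)` and a box with defect zero south-east of `(i,j)` below `(c,r)`, then there is one north-west of `(i,j)`.
-/

set_option autoImplicit false

open Pool.Agent.H30.KL Pool.Agent.H38.KL Pool.Agent.H44.KL

namespace Pool.Agent.H94.KL

variable {n : ℕ} {u v : Equiv.Perm (Fin n)} {i j i' j' : Fin n} {A B C R : Finset (Fin n)}
  {s : Fin n → Fin n}

/-- rectangle rule, lower permutation -/
theorem rect_u (u : Equiv.Perm (Fin n)) (hi : i' ≤ i) (hj : j ≤ j') :
    rk u i j' + rk u i' j + (Finset.univ.filter fun x => j < x ∧ x ≤ j' ∧ i' ≤ u x ∧ u x < i).card =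
      rk u i j + rk u i' j' := by
  classical
  simp only [rk]
  have h1 := Finset.card_union_add_card_inter (Finset.univ.filter fun k => k ≤ j' ∧ i ≤ u k)
    (Finset.univ.filter fun k => k ≤ j ∧ i' ≤ u k)
  have h2 : (Finset.univ.filter fun k => k ≤ j' ∧ i ≤ u k) ∩
      (Finset.univ.filter fun k => k ≤ j ∧ i' ≤ u k) = Finset.univ.filter fun k => k ≤ j ∧ i ≤ u k := by
    ext k
    simp only [Finset.mem_inter, Finset.mem_filter, Finset.mem_univ, true_and]
    constructor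
    · rintro ⟨h3, h4⟩
      exact ⟨h4.1, h3.2⟩
    · rintro ⟨h3, h4⟩
      exact ⟨⟨h3.trans hj, h4⟩, h3, hi.trans h4⟩
  have h3 : Disjoint ((Finset.univ.filter fun k => k ≤ j' ∧ i ≤ u k) ∪
      (Finset.univ.filter fun k => k ≤ j ∧ i' ≤ u k))
      (Finset.univ.filter fun x => j < x ∧ x ≤ j' ∧ i' ≤ u x ∧ u x < i) := by
    rw [Finset.disjoint_left]
    intro k
    simp only [Finset.mem_union, Finset.mem_filter, Finset.mem_univ, true_and]
    rintro (h4 | h4) h5
    · exact absurd h5.2.2.2 (not_lt.2 h4.2)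
    · exact absurd h5.1 (not_lt.2 h4.1)
  have h4 : ((Finset.univ.filter fun k => k ≤ j' ∧ i ≤ u k) ∪
      (Finset.univ.filter fun k => k ≤ j ∧ i' ≤ u k)) ∪
      (Finset.univ.filter fun x => j < x ∧ x ≤ j' ∧ i' ≤ u x ∧ u x < i) =
      Finset.univ.filter fun k => k ≤ j' ∧ i' ≤ u k := by
    ext k
    simp only [Finset.mem_union, Finset.mem_filter, Finset.mem_univ, true_and]
    constructor
    · rintro ((h5 | h5) | h5)
      · exact ⟨h5.1, hi.trans h5.2⟩
      · exact ⟨h5.1.trans hj, h5.2⟩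
      · exact ⟨h5.2.1, h5.2.2.1⟩
    · rintro ⟨h5, h6⟩
      by_cases h7 : i ≤ u k
      · exact Or.inl (Or.inl ⟨h5, h7⟩)
      · by_cases h8 : k ≤ j
        · exact Or.inl (Or.inr ⟨h8, h6⟩)
        · exact Or.inr ⟨not_le.1 h8, h5, h6, not_le.1 h7⟩
  have h5 := Finset.card_union_of_disjoint h3
  rw [h4] at h5
  rw [h2] at h1
  omega

/-- rectangle rule -/
theorem rect_v (v : Equiv.Perm (Fin n)) (hi : i' ≤ i) (hj : j ≤ j') :
    rk v i j' + rk v i' j ≤ rk v i j + rk v i' j' := by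
  have h := rect_u v hi hj
  omega

theorem disj_C (hC : C ⊆ SWs u i j) : Disjoint (NWs u i j) C := by
  rw [Finset.disjoint_left]
  intro x hx hx'
  exact absurd (mem_NWs.1 hx).2 (not_le.2 (mem_SWs.1 (hC hx')).2)

theorem disj_R (hR : R ⊆ NEs u i j) : Disjoint (NWs u i j) R := by
  rw [Finset.disjoint_left]
  intro x hx hx'
  exact absurd (mem_NWs.1 hx).1 (not_le.2 (mem_NEs.1 (hR hx')).1)

theorem card_C_eq_R (hC : C ⊆ SWs u i j) (hR : R ⊆ NEs u i j)
    (hs : Mt u (NWs u i j ∪ C) (NWs u i j ∪ R) s) : C.card = R.card := by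
  have h := hs.card
  rw [Finset.card_union_of_disjoint (disj_C hC), Finset.card_union_of_disjoint (disj_R hR)] at h
  omega

/-- a box of defect zero is not weakly south-west of an irreducible box if `C` has two elements and one of them is
south-west of it -/
theorem no_SW (hcard : rk u i j + C.card = rk v i j + 1) (h2 : 2 ≤ C.card) (hI : Irr u v i j C R)
    {i0 j0 : Fin n} (hi : i0 ≤ i) (hj : j0 ≤ j) (hz : rk v i0 j0 = rk u i0 j0) {c : Fin n}
    (hc : c ∈ C) (hc1 : c ≤ j0) (hc2 : u c < i0) : False := by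
  by_cases h : i0 = i ∧ j0 = j
  · rw [h.1, h.2] at hz
    omega
  · rcases hI.1 i0 j0 hi hj (by tauto) with h3 | h3
    · have h4 : 0 < (C.filter fun c => c ≤ j0 ∧ u c < i0).card :=
        Finset.card_pos.2 ⟨c, Finset.mem_filter.2 ⟨hc, hc1, hc2⟩⟩
      omega
    · have h4 := h3.2
      omega

theorem no_NE (hcard : rk u i j + C.card = rk v i j + 1) (h2 : 2 ≤ C.card) (hCR : C.card = R.card)
    (hI : Irr u v i j C R) {i0 j0 : Fin n} (hi : i ≤ i0) (hj : j ≤ j0)
    (hz : rk v i0 j0 = rk u i0 j0) {r : Fin n} (hr : r ∈ R) (hr1 : j0 < r) (hr2 : i0 ≤ u r) : False := by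
  by_cases h : i0 = i ∧ j0 = j
  · rw [h.1, h.2] at hz
    omega
  · rcases hI.2 i0 j0 hi hj (by tauto) with h3 | h3
    · have h4 : 0 < (R.filter fun r => j0 < r ∧ i0 ≤ u r).card :=
        Finset.card_pos.2 ⟨r, Finset.mem_filter.2 ⟨hr, hr1, hr2⟩⟩
      omega
    · have h4 := h3.2
      omega

/-- a matching which satisfies the rank conditions has no step over a box of defect zero north-west of `(i,j)` -/
theorem no_NW (hcard : rk u i j + C.card = rk v i j + 1) (h2 : 2 ≤ C.card)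
    (hs : Mt u (NWs u i j ∪ C) B s) (hrk : Rk u v i j (NWs u i j ∪ C) s)
    {i0 j0 : Fin n} (hi : i ≤ i0) (hj : j0 ≤ j) (hz : rk v i0 j0 = rk u i0 j0) {a : Fin n}
    (ha : a ∈ NWs u i j ∪ C) (ha1 : a ≤ j0) (ha2 : u a < i0) (ha3 : i0 ≤ u (s a)) : False := by
  classical
  by_cases h : i0 = i ∧ j0 = j
  · rw [h.1, h.2] at hz
    omega
  · have h3 := hrk i0 j0 hi hj (by tauto)
    have h4 : insert a (NWs u i0 j0) ⊆
        (NWs u i j ∪ C).filter fun x => x ≤ j0 ∧ i0 ≤ u (s x) := by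
      intro x hx
      rcases Finset.mem_insert.1 hx with h5 | h5
      · rw [h5]
        exact Finset.mem_filter.2 ⟨ha, ha1, ha3⟩
      · have h6 := mem_NWs.1 h5
        have h7 : x ∈ NWs u i j ∪ C :=
          Finset.mem_union_left _ (mem_NWs.2 ⟨h6.1.trans hj, hi.trans h6.2⟩)
        exact Finset.mem_filter.2 ⟨h7, h6.1, h6.2.trans (hs.le_val h7)⟩
    have h5 := Finset.card_le_card h4
    have h6 : a ∉ NWs u i0 j0 := fun h7 => absurd (mem_NWs.1 h7).2 (not_le.2 ha2)
    rw [Finset.card_insert_of_notMem h6, card_NWs] at h5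
    omega

/-- every proper step is alive or a direct step over a box of defect zero south-east of `(i,j)` -/
theorem alive_or (hC : C ⊆ SWs u i j) (hR : R ⊆ NEs u i j)
    (hcard : rk u i j + C.card = rk v i j + 1) (h2 : 2 ≤ C.card) (hI : Irr u v i j C R)
    (huv : BruhatLE u v) (hs : Mt u (NWs u i j ∪ C) (NWs u i j ∪ R) s)
    (hrk : Rk u v i j (NWs u i j ∪ C) s) {a : Fin n} (ha : a ∈ NWs u i j ∪ C) (hne : s a ≠ a) :
    BruhatLE (u * Equiv.swap a (s a)) v ∨ (a ∈ C ∧ s a ∈ R ∧ ∃ i0 j0 : Fin n, i0 ≤ i ∧ j ≤ j0 ∧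
      rk v i0 j0 = rk u i0 j0 ∧ u a < i0 ∧ j0 < s a) := by
  by_contra hcon
  push Not at hcon
  obtain ⟨hnot, hcon⟩ := hcon
  obtain ⟨hlt, hul⟩ := hs.up a ha hne
  obtain ⟨i0, j0, -, h3, h4, h5, h6, h7⟩ := sep_of_not_le huv hlt hul hnot
  have hz := h7.symm
  have hb := hs.mem ha
  rcases le_total i0 i with hi | hi
  · have haC : a ∈ C := by
      rcases Finset.mem_union.1 ha with h8 | h8
      · exact absurd ((mem_NWs.1 h8).2) (not_le.2 (lt_of_lt_of_le h5 hi))
      · exact h8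
    rcases le_total j0 j with hj | hj
    · exact no_SW hcard h2 hI hi hj hz haC h3 h5
    · have hbR : s a ∈ R := by
        rcases Finset.mem_union.1 hb with h8 | h8
        · exact absurd ((mem_NWs.1 h8).1) (not_le.2 (lt_of_le_of_lt hj h4))
        · exact h8
      exact absurd h4 (not_lt.2 (hcon haC hbR i0 j0 hi hj hz h5))
  · rcases le_total j0 j with hj | hj
    · exact no_NW hcard h2 hs hrk hi hj hz ha h3 h5 h6
    · have hbR : s a ∈ R := by
        rcases Finset.mem_union.1 hb with h8 | h8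
        · exact absurd ((mem_NWs.1 h8).1) (not_le.2 (lt_of_le_of_lt hj h4))
        · exact h8
      exact no_NE hcard h2 (card_C_eq_R hC hR hs) hI hi hj hz hbR h4 h6

/-- a box of defect zero north-west of `(i,j)`, if there is one south-east of it; version with all the inequalities -/
theorem zero_box' (hC : C ⊆ SWs u i j) (hR : R ⊆ NEs u i j) (hCR : C.card = R.card)
    (hcard : rk u i j + C.card = rk v i j + 1) (h2 : 2 ≤ C.card) (hI : Irr u v i j C R)
    (huv : BruhatLE u v) (hH : Hom u v) {c r : Fin n} (hc : c ∈ C) (hr : r ∈ R)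
    {P : Finset (Fin n)} (hP : IsPath u c r P) (hPb : ∀ d ∈ P, d = c ∨ d = r ∨ d ∈ NWs u i j)
    (hP3 : 3 ≤ P.card)
    (hz : ∃ i0 j0 : Fin n, i0 ≤ i ∧ j ≤ j0 ∧ rk v i0 j0 = rk u i0 j0 ∧ u c < i0 ∧ j0 < r) :
    ∃ i0 j0 : Fin n, i ≤ i0 ∧ j0 ≤ j ∧ (i0 ≠ i ∨ j0 ≠ j) ∧ rk v i0 j0 = rk u i0 j0 ∧ u c < i0 ∧
      c ≤ j0 ∧ j0 < r ∧ i0 ≤ u r := by
  classical
  by_contra hcon
  obtain ⟨i1, j1, hi1, hj1, hz1, hc1, hr1⟩ := hz
  have hcm := mem_SWs.1 (hC hc)
  have hrm := mem_NEs.1 (hR hr)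
  set F : Finset (Fin n × Fin n) := Finset.univ.filter (Zr u v c r) with hF
  have hmem : ∀ f, f ∈ F ↔ Zr u v c r f := fun f => by
    rw [hF, Finset.mem_filter]
    exact ⟨fun h => h.2, fun h => ⟨Finset.mem_univ _, h⟩⟩
  have hne : F.Nonempty :=
    ⟨(i1, j1), (hmem _).2 ⟨hz1, hc1, hcm.1.trans hj1, hr1, hi1.trans hrm.2⟩⟩
  have hSE : ∀ f ∈ F, f.1 ≤ i ∧ j ≤ f.2 := by
    intro f hf
    obtain ⟨h3, h4, h5, h6, h7⟩ := (hmem f).1 hf
    rcases le_total f.1 i with hi | hi
    · rcases le_total f.2 j with hj | hj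
      · exact (no_SW hcard h2 hI hi hj h3 hc h5 h4).elim
      · exact ⟨hi, hj⟩
    · rcases le_total f.2 j with hj | hj
      · by_cases h8 : f.1 = i ∧ f.2 = j
        · exact ⟨h8.1.le, h8.2.ge⟩
        · exact (hcon ⟨f.1, f.2, hi, hj, by tauto, h3, h4, h5, h6, h7⟩).elim
      · exact (no_NE hcard h2 hCR hI hi hj h3 hr h6 h7).elim
  have hcr : c < r := lt_of_le_of_lt hcm.1 hrm.1
  have hcr' : u c < u r := lt_of_lt_of_le hcm.2 hrm.2
  refine nonhom_one huv hne (fun f hf => (hmem f).1 hf) (K := 2) (K' := P.card) (by omega) ?_ ?_ hH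
  · intro e _
    refine ⟨{c, r}, ⟨by simp, by simp, ?_, ?_⟩, Finset.card_pair hcr.ne, ?_, ?_⟩
    · intro x hx
      rcases Finset.mem_insert.1 hx with h3 | h3
      · rw [h3]
        exact ⟨le_rfl, hcr.le⟩
      · rw [Finset.mem_singleton.1 h3]
        exact ⟨hcr.le, le_rfl⟩
    · intro x hx y hy hxy
      rcases Finset.mem_insert.1 hx with h3 | h3
      · rcases Finset.mem_insert.1 hy with h4 | h4
        · rw [h3, h4] at hxy
          exact absurd hxy (lt_irrefl _)
        · rw [h3, Finset.mem_singleton.1 h4]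
          exact hcr'
      · rcases Finset.mem_insert.1 hy with h4 | h4
        · rw [Finset.mem_singleton.1 h3, h4] at hxy
          exact absurd hxy (not_lt.2 hcr.le)
        · rw [Finset.mem_singleton.1 h3, Finset.mem_singleton.1 h4] at hxy
          exact absurd hxy (lt_irrefl _)
    · intro d hd
      rcases Finset.mem_insert.1 hd with h3 | h3
      · exact Or.inl h3
      · exact Or.inr (Or.inl (Finset.mem_singleton.1 h3))
    · intro f hf hf'
      exact absurd ((hmem f).2 hf) hf'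
  · intro e he
    refine ⟨P, hP, rfl, ?_, ?_⟩
    · intro d hd
      have h3 := hSE e he.1
      rcases hPb d hd with h4 | h4 | h4
      · exact Or.inl h4
      · exact Or.inr (Or.inl h4)
      · have h5 := mem_NWs.1 h4
        exact Or.inr (Or.inr ⟨h5.1.trans h3.2, h3.1.trans h5.2⟩)
    · intro f hf hf'
      exact absurd ((hmem f).2 hf) hf'

/-- a box of defect zero north-west of `(i,j)`, if there is one south-east of it -/
theorem zero_box (hC : C ⊆ SWs u i j) (hR : R ⊆ NEs u i j) (hCR : C.card = R.card)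
    (hcard : rk u i j + C.card = rk v i j + 1) (h2 : 2 ≤ C.card) (hI : Irr u v i j C R)
    (huv : BruhatLE u v) (hH : Hom u v) {c r : Fin n} (hc : c ∈ C) (hr : r ∈ R)
    {P : Finset (Fin n)} (hP : IsPath u c r P) (hPb : ∀ d ∈ P, d = c ∨ d = r ∨ d ∈ NWs u i j)
    (hP3 : 3 ≤ P.card)
    (hz : ∃ i0 j0 : Fin n, i0 ≤ i ∧ j ≤ j0 ∧ rk v i0 j0 = rk u i0 j0 ∧ u c < i0 ∧ j0 < r) :
    ∃ i0 j0 : Fin n, i ≤ i0 ∧ j0 ≤ j ∧ (i0 ≠ i ∨ j0 ≠ j) ∧ rk v i0 j0 = rk u i0 j0 ∧ u c < i0 ∧
      c ≤ j0 := by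
  obtain ⟨i0, j0, h3, h4, h5, h6, h7, h8, -, -⟩ :=
    zero_box' hC hR hCR hcard h2 hI huv hH hc hr hP hPb hP3 hz
  exact ⟨i0, j0, h3, h4, h5, h6, h7, h8⟩

end Pool.Agent.H94.KL
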