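import Pool.Agent.H61.KL.Comp
import Pool.Agent.H44.KL.CDefs
import Pool.Agent.H29.KL.ToolLdr
import Pool.Agent.H30.KL.Gen.Nec1

/-!
# From linkings to the ideal (MP_a7460d_ag, necessity of the class condition)
-/

set_option autoImplicit false

open MvPolynomial Matrix Pool.Agent.H30.KL Pool.Agent.H44.KL

namespace Pool.Agent.H94.KL

variable {n : ℕ} {u v : Equiv.Perm (Fin n)} {i j : Fin n} {C R : Finset (Fin n)}

section

variable {s : ℕ} {f g : Fin s → Fin n} {τ : Equiv.Perm (Fin s)} {A B : Finset (Fin n)}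

/-- transfer of a count -/
theorem card_pmap (hg : Function.Injective g) (hG : Finset.univ.image g = A)
    (P : Fin n → Fin n → Prop) [∀ a b, Decidable (P a b)] {σ : Fin n → Fin n}
    (hσ : ∀ y, σ (g y) = f (τ y)) :
    (A.filter fun a => P a (σ a)).card = (Finset.univ.filter fun y => P (g y) (f (τ y))).card := by
  have memG : ∀ a, a ∈ A ↔ ∃ y, g y = a := by
    intro a
    rw [← hG, Finset.mem_image]
    simp
  symm
  refine Finset.card_bij (fun y _ => g y) ?_ ?_ ?_
  · intro y hy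
    rw [Finset.mem_filter] at hy ⊢
    refine ⟨(memG _).2 ⟨y, rfl⟩, ?_⟩
    rw [hσ]
    exact hy.2
  · intro y _ y' _ h
    exact hg h
  · intro a ha
    rw [Finset.mem_filter] at ha
    obtain ⟨y, rfl⟩ := (memG a).1 ha.1
    have h2 := ha.2
    rw [hσ] at h2
    exact ⟨y, by rw [Finset.mem_filter]; exact ⟨Finset.mem_univ _, h2⟩, rfl⟩

theorem link_pmap (hf : Function.Injective f) (hg : Function.Injective g)
    (hF : Finset.univ.image f = NWs u i j ∪ R) (hG : Finset.univ.image g = NWs u i j ∪ C)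
    (hτ : Star u v i j f g τ) (hnz : ∀ y, Zmat u (u (f (τ y))) (g y) ≠ 0)
    (hal : ∀ y, g y ≠ f (τ y) → BruhatLE (u * Equiv.swap (g y) (f (τ y))) v ∨
      C = {g y} ∧ R = {f (τ y)}) : Link u v i j C R (pmap f g τ) := by
  have hσ : ∀ y, pmap f g τ (g y) = f (τ y) := fun y => pmap_apply hg y
  have memG : ∀ a, a ∈ NWs u i j ∪ C ↔ ∃ y, g y = a := by
    intro a
    rw [← hG, Finset.mem_image]
    simp
  have memF : ∀ a, a ∈ NWs u i j ∪ R ↔ ∃ y, f y = a := by
    intro a
    rw [← hF, Finset.mem_image]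
    simp
  refine ⟨⟨?_, ?_, ?_⟩, ?_, ?_⟩
  · intro a ha
    obtain ⟨y, rfl⟩ := (memG a).1 (Finset.mem_coe.1 ha)
    rw [hσ]
    exact Finset.mem_coe.2 ((memF _).2 ⟨τ y, rfl⟩)
  · intro a ha b hb hab
    obtain ⟨y, rfl⟩ := (memG a).1 (Finset.mem_coe.1 ha)
    obtain ⟨y', rfl⟩ := (memG b).1 (Finset.mem_coe.1 hb)
    rw [hσ, hσ] at hab
    rw [τ.injective (hf hab)]
  · intro b hb
    obtain ⟨x, rfl⟩ := (memF b).1 (Finset.mem_coe.1 hb)
    refine ⟨g (τ⁻¹ x), Finset.mem_coe.2 ((memG _).2 ⟨_, rfl⟩), ?_⟩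
    rw [hσ]
    simp
  · intro a ha hne
    obtain ⟨y, rfl⟩ := (memG a).1 ha
    rw [hσ] at hne ⊢
    rcases entry_ne_zero (hnz y) with h | h
    · exact absurd h.symm hne
    · exact ⟨h.1, h.2, hal y (Ne.symm hne)⟩
  · intro i' j' a1 a2 a3
    have h2 := hτ i' j' a1 a2 a3
    rw [cnt] at h2
    rw [card_pmap hg hG (fun a b => a ≤ j' ∧ i' ≤ u b) hσ]
    exact h2

theorem prod_eq (hg : Function.Injective g) (hG : Finset.univ.image g = A)
    (hnz : ∀ y, Zmat u (u (f (τ y))) (g y) ≠ 0) :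
    ∏ y, Zmat u (u (f (τ y))) (g y) = monomial (∑ a ∈ A, mon u a (pmap f g τ a)) 1 := by
  rw [← hG, Finset.sum_image (fun x _ y _ h => hg h), monomial_sum_one]
  apply Finset.prod_congr rfl
  intro y _
  rw [Zmat_eq_monomial (hnz y), pmap_apply hg]

end

section

variable {A B B' : Finset (Fin n)} {s t : Fin n → Fin n}

theorem sum_mon_apply (A : Finset (Fin n)) (s : Fin n → Fin n) {a b : Fin n}
    (h : a < b ∧ u a < u b) :
    (∑ x ∈ A, mon u x (s x)) (pr u a b h) = if a ∈ A ∧ s a = b then 1 else 0 := by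
  rw [Finsupp.finsetSum_apply]
  simp only [mon_apply]
  by_cases ha : a ∈ A
  · rw [Finset.sum_eq_single_of_mem a ha]
    · by_cases h1 : s a = b
      · rw [if_pos ⟨rfl, h1⟩, if_pos ⟨ha, h1⟩]
      · rw [if_neg (fun h2 => h1 h2.2), if_neg (fun h2 => h1 h2.2)]
    · intro k _ hk
      rw [if_neg (fun h2 => hk h2.1)]
  · rw [if_neg (fun h2 => ha h2.1)]
    apply Finset.sum_eq_zero
    intro k hk
    rw [if_neg]
    rintro ⟨rfl, -⟩
    exact ha hk

theorem sum_mon_inj (hs : Mt u A B s) (ht : Mt u A B' t)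
    (h : ∑ a ∈ A, mon u a (s a) = ∑ a ∈ A, mon u a (t a)) : ∀ a ∈ A, s a = t a := by
  intro a ha
  by_cases h1 : t a = a
  · by_cases h2 : s a = a
    · rw [h1, h2]
    · have h3 := hs.up a ha h2
      have h4 := DFunLike.congr_fun h (pr u _ _ h3)
      rw [sum_mon_apply, sum_mon_apply, if_pos ⟨ha, rfl⟩] at h4
      by_contra h5
      rw [if_neg (fun h6 => h5 h6.2.symm)] at h4
      exact one_ne_zero h4
  · have h3 := ht.up a ha h1
    have h4 := DFunLike.congr_fun h (pr u _ _ h3)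
    rw [sum_mon_apply, sum_mon_apply, if_pos (⟨ha, rfl⟩ : a ∈ A ∧ t a = t a)] at h4
    by_contra h5
    rw [if_neg (fun h6 => h5 h6.2)] at h4
    exact one_ne_zero h4.symm

end

theorem exists_perm {s : ℕ} {f g : Fin s → Fin n} {A B : Finset (Fin n)}
    (hg : Function.Injective g) (hF : Finset.univ.image f = B)
    (hG : Finset.univ.image g = A) {σ : Fin n → Fin n} (hm : Set.MapsTo σ ↑A ↑B)
    (hi : Set.InjOn σ ↑A) : ∃ τ : Equiv.Perm (Fin s), ∀ y, f (τ y) = σ (g y) := by
  have h1 : ∀ y, ∃ x, f x = σ (g y) := by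
    intro y
    have h2 : g y ∈ A := by
      rw [← hG]
      exact Finset.mem_image_of_mem g (Finset.mem_univ y)
    have h3 : σ (g y) ∈ B := hm (Finset.mem_coe.2 h2)
    rw [← hF, Finset.mem_image] at h3
    obtain ⟨x, -, hx⟩ := h3
    exact ⟨x, hx⟩
  choose τ hτ using h1
  have h2 : Function.Injective τ := by
    intro y y' h
    have h3 : σ (g y) = σ (g y') := by rw [← hτ, ← hτ, h]
    apply hg
    apply hi _ _ h3
    · rw [← hG]
      exact Finset.mem_coe.2 (Finset.mem_image_of_mem g (Finset.mem_univ y))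
    · rw [← hG]
      exact Finset.mem_coe.2 (Finset.mem_image_of_mem g (Finset.mem_univ y'))
  exact ⟨Equiv.ofBijective τ (Finite.injective_iff_bijective.1 h2), fun y => hτ y⟩

/-- the polynomial of the linkings with `mv σ` moved points -/
theorem exists_poly (huv : BruhatLE u v) (hH : Hom u v) (hC : C ⊆ SWs u i j)
    (hR : R ⊆ NEs u i j) (hm : C.card = R.card) (hg : rk u i j + C.card = rk v i j + 1)
    {σ : Fin n → Fin n} (hL : Link u v i j C R σ) :
    ∃ h ∈ klIdeal u v, h.coeff (∑ a ∈ NWs u i j ∪ C, mon u a (σ a)) ≠ 0 ∧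
      ∀ m' ∈ h.support, ∃ t, Link u v i j C R t ∧
        mv (NWs u i j ∪ C) t = mv (NWs u i j ∪ C) σ ∧
        m' = ∑ a ∈ NWs u i j ∪ C, mon u a (t a) := by
  classical
  have hdC : Disjoint (NWs u i j) C := by
    rw [Finset.disjoint_left]
    intro a ha ha'
    exact absurd (mem_NWs.1 ha).2 (not_le.2 (mem_SWs.1 (hC ha')).2)
  have hdR : Disjoint (NWs u i j) R := by
    rw [Finset.disjoint_left]
    intro a ha ha'
    exact absurd (mem_NWs.1 ha).1 (not_le.2 (mem_NEs.1 (hR ha')).1)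
  have hA : (NWs u i j ∪ C).card = rk v i j + 1 := by
    rw [Finset.card_union_of_disjoint hdC, card_NWs, hg]
  have hB : (NWs u i j ∪ R).card = rk v i j + 1 := by
    rw [Finset.card_union_of_disjoint hdR, card_NWs, ← hm, hg]
  obtain ⟨f, hf, hF⟩ : ∃ f : Fin (rk v i j + 1) → Fin n, Function.Injective f ∧
      Finset.univ.image f = NWs u i j ∪ R :=
    ⟨(NWs u i j ∪ R).orderEmbOfFin hB, (Finset.orderEmbOfFin _ hB).injective,
      Finset.image_orderEmbOfFin_univ _ hB⟩
  obtain ⟨g, hgi, hG⟩ : ∃ g : Fin (rk v i j + 1) → Fin n, Function.Injective g ∧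
      Finset.univ.image g = NWs u i j ∪ C :=
    ⟨(NWs u i j ∪ C).orderEmbOfFin hA, (Finset.orderEmbOfFin _ hA).injective,
      Finset.image_orderEmbOfFin_univ _ hA⟩
  have memG : ∀ y, g y ∈ NWs u i j ∪ C := by
    intro y
    rw [← hG]
    exact Finset.mem_image_of_mem g (Finset.mem_univ y)
  have memF : ∀ x, f x ∈ NWs u i j ∪ R := by
    intro x
    rw [← hF]
    exact Finset.mem_image_of_mem f (Finset.mem_univ x)
  have hfi : ∀ x, i ≤ u (f x) := by
    intro x
    rcases Finset.mem_union.1 (memF x) with h | h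
    · exact (mem_NWs.1 h).2
    · exact (mem_NEs.1 (hR h)).2
  have hgj : ∀ y, g y ≤ j := by
    intro y
    rcases Finset.mem_union.1 (memG y) with h | h
    · exact (mem_NWs.1 h).1
    · exact (mem_SWs.1 (hC h)).1
  have hmem := Pool.Agent.H61.KL.part_mem huv hH f g hfi hgj (Nat.lt_succ_self _) C R
    (mv (NWs u i j ∪ C) σ)
  obtain ⟨τ₀, hτ₀⟩ := exists_perm hgi hF hG hL.bij.mapsTo hL.bij.injOn
  refine ⟨_, hmem, ?_, ?_⟩
  · rw [coeff_sum, Finset.sum_eq_single_of_mem τ₀]
    · have hnz : ∀ y, Zmat u (u (f (τ₀ y))) (g y) ≠ 0 := by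
        intro y
        rw [hτ₀]
        by_cases h1 : σ (g y) = g y
        · rw [h1, entry_diag]
          exact one_ne_zero
        · have h2 := hL.up _ (memG y) h1
          have h3 : u (g y) < u (σ (g y)) ∧ g y < u.symm (u (σ (g y))) :=
            ⟨h2.2.1, by rw [Equiv.symm_apply_apply]; exact h2.1⟩
          rw [Zmat, Matrix.of_apply, dif_pos h3]
          exact X_ne_zero _
      rw [prod_eq hgi hG hnz]
      have h4 : ∑ a ∈ NWs u i j ∪ C, mon u a (pmap f g τ₀ a) =
          ∑ a ∈ NWs u i j ∪ C, mon u a (σ a) := by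
        apply Finset.sum_congr rfl
        intro a ha
        rw [← hG, Finset.mem_image] at ha
        obtain ⟨y, -, rfl⟩ := ha
        rw [pmap_apply hgi, hτ₀]
      rw [h4, coeff_smul, coeff_monomial, if_pos rfl]
      rcases Int.units_eq_one_or (Equiv.Perm.sign τ₀) with h | h
      · rw [h, one_smul]
        exact one_ne_zero
      · rw [h, Units.neg_smul, one_smul]
        exact neg_ne_zero.2 one_ne_zero
    · rw [Finset.mem_filter]
      refine ⟨Finset.mem_univ _, ?_, ?_, ?_, ?_⟩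
      · intro i' j' a1 a2 a3
        rw [cnt, ← card_pmap (f := f) (τ := τ₀) hgi hG (fun a b => a ≤ j' ∧ i' ≤ u b)
          (fun y => (hτ₀ y).symm)]
        exact hL.rank i' j' a1 a2 a3
      · intro y
        rw [hτ₀]
        by_cases h1 : σ (g y) = g y
        · rw [h1, entry_diag]
          exact one_ne_zero
        · have h2 := hL.up _ (memG y) h1
          have h3 : u (g y) < u (σ (g y)) ∧ g y < u.symm (u (σ (g y))) :=
            ⟨h2.2.1, by rw [Equiv.symm_apply_apply]; exact h2.1⟩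
          rw [Zmat, Matrix.of_apply, dif_pos h3]
          exact X_ne_zero _
      · intro y hne
        rw [hτ₀] at hne ⊢
        exact (hL.up _ (memG y) (Ne.symm hne)).2.2
      · rw [mv]
        exact (card_pmap (f := f) (τ := τ₀) hgi hG (fun a b => b ≠ a)
          (fun y => (hτ₀ y).symm)).symm
    · intro τ hτ hne
      rw [Finset.mem_filter] at hτ
      obtain ⟨-, t1, t2, t3, t4⟩ := hτ
      rw [prod_eq hgi hG t2, coeff_smul, coeff_monomial, if_neg, smul_zero]
      intro h5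
      apply hne
      have h6 := sum_mon_inj (mt_of_link (link_pmap hf hgi hF hG t1 t2 t3)) (mt_of_link hL) h5
      ext1 y
      apply hf
      rw [hτ₀, ← h6 _ (memG y), pmap_apply hgi]
  · intro m' hm'
    rw [mem_support_iff, coeff_sum] at hm'
    obtain ⟨τ, hτ, hne⟩ := Finset.exists_ne_zero_of_sum_ne_zero hm'
    rw [Finset.mem_filter] at hτ
    obtain ⟨-, t1, t2, t3, t4⟩ := hτ
    refine ⟨pmap f g τ, link_pmap hf hgi hF hG t1 t2 t3, ?_, ?_⟩
    · rw [← t4, mv]
      exact card_pmap (f := f) (τ := τ) hgi hG (fun a b => b ≠ a) (fun y => pmap_apply hgi y)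
    · by_contra h5
      apply hne
      rw [prod_eq hgi hG t2, coeff_smul, coeff_monomial, if_neg (fun h6 => h5 h6.symm), smul_zero]

theorem sum_mon_eq (A : Finset (Fin n)) (s : Fin n → Fin n) :
    ∑ a ∈ A, mon u a (s a) = Pool.Agent.H29.KL.expo u A s := by
  ext x
  obtain ⟨a, b, h, rfl⟩ := exists_pr u x
  rw [sum_mon_apply, Pool.Agent.H29.KL.expo_apply]
  have e1 : (pr u a b h).1.2 = a := rfl
  have e2 : (pr u a b h).1.1 = u b := rfl
  rw [e1, e2]
  by_cases h1 : a ∈ A ∧ s a = b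
  · rw [if_pos h1, if_pos]
    refine ⟨h1.1, ?_, by rw [h1.2]⟩
    rw [h1.2]
    exact h.1.ne'
  · rw [if_neg h1, if_neg]
    rintro ⟨h2, -, h3⟩
    exact h1 ⟨h2, u.injective h3⟩

/-- the largest linking with a given number of moved points contains the largest matching of a minor of the ideal -/
theorem leader_of_lexmax (huv : BruhatLE u v) (hH : Hom u v) (hC : C ⊆ SWs u i j)
    (hR : R ⊆ NEs u i j) (hm : C.card = R.card) (hg : rk u i j + C.card = rk v i j + 1)
    {σ : Fin n → Fin n} (hL : Link u v i j C R σ)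
    (hlex : ∀ t, Link u v i j C R t → mv (NWs u i j ∪ C) t = mv (NWs u i j ∪ C) σ →
      ¬ Lt u (NWs u i j ∪ C) σ t) :
    ∃ (i' j' : Fin n) (G F : Finset (Fin n)) (μ : Fin n → Fin n), Ldr u v i' j' G F μ ∧
      ∀ y ∈ G, μ y ≠ y → y ∈ NWs u i j ∪ C ∧ μ y = σ y := by
  obtain ⟨h, hh, hc, hs⟩ := exists_poly huv hH hC hR hm hg hL
  rw [sum_mon_eq] at hc
  refine Pool.Agent.H29.KL.tool_mt (mt_of_link hL) hh hc ?_
  intro m' hm'
  obtain ⟨t, ht, ht2, ht3⟩ := hs m' hm'
  rw [sum_mon_eq] at ht3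
  exact ⟨t, mt_of_link ht, ht3, hlex t ht ht2⟩

end Pool.Agent.H94.KL
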