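import Pool.Agent.H44.KL.CDefs
import Pool.Agent.H94.KL.Geo

/-!
# Counting the full and the free paths (MP_a7460d_ag, necessity of the class condition, case C)
-/

set_option autoImplicit false

open Pool.Agent.H30.KL Pool.Agent.H44.KL

namespace Pool.Agent.H94.KL

variable {n : ℕ} {u v : Equiv.Perm (Fin n)} {i j i' j' : Fin n} {C R G F : Finset (Fin n)}
  {σ μ : Fin n → Fin n}

theorem notMem_B (hC : C ⊆ SWs u i j) (hR : R ⊆ NEs u i j) {c : Fin n} (hc : c ∈ C) :
    c ∉ NWs u i j ∪ R := by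
  intro h
  have h1 := mem_SWs.1 (hC hc)
  rcases Finset.mem_union.1 h with h2 | h2
  · exact absurd (mem_NWs.1 h2).2 (not_le.2 h1.2)
  · exact absurd (mem_NEs.1 (hR h2)).1 (not_lt.2 h1.1)

theorem en_R (hC : C ⊆ SWs u i j) (hR : R ⊆ NEs u i j)
    (hσ : Mt u (NWs u i j ∪ C) (NWs u i j ∪ R) σ) {c : Fin n} (hc : c ∈ C) :
    en (NWs u i j ∪ C) σ c ∈ R := by
  obtain ⟨h1, h2⟩ := en_spec hσ (Finset.mem_union_right _ hc) (notMem_B hC hR hc)
  rcases Finset.mem_union.1 h1 with h3 | h3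
  · exact absurd (Finset.mem_union_left _ h3) h2
  · exact h3

theorem en_notMem (hC : C ⊆ SWs u i j) (hR : R ⊆ NEs u i j)
    (hσ : Mt u (NWs u i j ∪ C) (NWs u i j ∪ R) σ) {c : Fin n} (hc : c ∈ C) :
    en (NWs u i j ∪ C) σ c ∉ NWs u i j ∪ C :=
  (en_spec hσ (Finset.mem_union_right _ hc) (notMem_B hC hR hc)).2

theorem pth_N (hC : C ⊆ SWs u i j) (hR : R ⊆ NEs u i j)
    (hσ : Mt u (NWs u i j ∪ C) (NWs u i j ∪ R) σ) {c : Fin n} (hc : c ∈ C) {x : Fin n}
    (hx : x ∈ pth (NWs u i j ∪ C) σ c) (hxc : x ≠ c) (hxr : x ≠ en (NWs u i j ∪ C) σ c) :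
    x ∈ NWs u i j := by
  have h1 := (pth_sub hσ hx hxr).1
  obtain ⟨y, hy, hy1, hy2⟩ := pth_back hσ hx hxc
  have h2 := hσ.mem (pth_sub hσ hy hy1).1
  rw [hy2] at h2
  rcases Finset.mem_union.1 h1 with h3 | h3
  · exact h3
  · exact absurd h2 (notMem_B hC hR h3)

theorem pth_cover' (hσ : Mt u (NWs u i j ∪ C) (NWs u i j ∪ R) σ) {y : Fin n}
    (hy : y ∈ NWs u i j ∪ C) (hne : σ y ≠ y) : ∃ c ∈ C, y ∈ pth (NWs u i j ∪ C) σ c := by
  obtain ⟨c, hc, hcB, hyc⟩ := pth_cover hσ y hy hne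
  refine ⟨c, ?_, hyc⟩
  rcases Finset.mem_union.1 hc with h | h
  · exact absurd (Finset.mem_union_left _ h) hcB
  · exact h

/-- `μ` restricts to a bijection of `G ∩ V` onto `F ∩ V` -/
theorem card_inter_pth (hC : C ⊆ SWs u i j) (hR : R ⊆ NEs u i j)
    (hσ : Mt u (NWs u i j ∪ C) (NWs u i j ∪ R) σ) (hμ : Mt u G F μ)
    (hsub : ∀ y ∈ G, μ y ≠ y → y ∈ NWs u i j ∪ C ∧ μ y = σ y) {c : Fin n} (hc : c ∈ C) :
    (G ∩ pth (NWs u i j ∪ C) σ c).card = (F ∩ pth (NWs u i j ∪ C) σ c).card := by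
  classical
  have hen := en_notMem hC hR hσ hc
  apply Finset.card_bij (fun y _ => μ y)
  · intro y hy
    rw [Finset.mem_inter] at hy ⊢
    refine ⟨hμ.mem hy.1, ?_⟩
    by_cases h1 : μ y = y
    · rw [h1]
      exact hy.2
    · obtain ⟨h2, h3⟩ := hsub y hy.1 h1
      rw [h3]
      exact (pth_sub hσ hy.2 (fun h4 => hen (h4 ▸ h2))).2.1
  · intro y hy z hz h
    exact hμ.inj (Finset.mem_inter.1 hy).1 (Finset.mem_inter.1 hz).1 h
  · intro z hz
    rw [Finset.mem_inter] at hz
    obtain ⟨y, hy, hyz⟩ := hμ.surj hz.1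
    refine ⟨y, ?_, hyz⟩
    rw [Finset.mem_inter]
    refine ⟨hy, ?_⟩
    by_cases h1 : μ y = y
    · rw [← h1, hyz]
      exact hz.2
    · obtain ⟨h2, h3⟩ := hsub y hy h1
      rcases pth_pre hσ (notMem_B hC hR hc) h2 (by rw [← h3, hyz]; exact hz.2) with h4 | h4
      · exact absurd (h3.trans h4) h1
      · exact h4

/-- all the points of a path except for its end lie in `G`: the path is full -/
theorem full_of_sub (hC : C ⊆ SWs u i j) (hR : R ⊆ NEs u i j)
    (hσ : Mt u (NWs u i j ∪ C) (NWs u i j ∪ R) σ) (hL : Ldr u v i' j' G F μ)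
    (hsub : ∀ y ∈ G, μ y ≠ y → y ∈ NWs u i j ∪ C ∧ μ y = σ y) {c : Fin n} (hc : c ∈ C)
    (h1 : u c < i') (h2 : j' < en (NWs u i j ∪ C) σ c)
    (hG : ∀ y ∈ pth (NWs u i j ∪ C) σ c, y ≠ en (NWs u i j ∪ C) σ c → y ∈ G) :
    Full u (NWs u i j ∪ C) σ i' j' G μ c := by
  refine ⟨h1, h2, ?_⟩
  intro y
  induction y using WellFoundedLT.induction with
  | ind y ih =>
    intro hy hne
    have hyG := hG y hy hne
    refine ⟨hyG, ?_⟩
    by_contra hcon
    have hfix : μ y = y := by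
      by_contra h3
      exact hcon (hsub y hyG h3).2
    by_cases hyc : y = c
    · have h3 := hL.mt.mem hyG
      rw [hfix, hyc] at h3
      exact absurd (hL.hF c h3) (not_le.2 h1)
    · obtain ⟨z, hz, hz1, hz2⟩ := pth_back hσ hy hyc
      have hzy : z < y := by
        rw [← hz2]
        exact (pth_sub hσ hz hz1).2.2.1
      obtain ⟨h3, h4⟩ := ih z hzy hz hz1
      have h5 : z = y := hL.mt.inj h3 hyG (by rw [h4, hz2, hfix])
      exact absurd hzy (by rw [h5]; exact lt_irrefl _)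

theorem free_of_sub (hC : C ⊆ SWs u i j) (hR : R ⊆ NEs u i j)
    (hσ : Mt u (NWs u i j ∪ C) (NWs u i j ∪ R) σ) (hL : Ldr u v i' j' G F μ)
    (hsub : ∀ y ∈ G, μ y ≠ y → y ∈ NWs u i j ∪ C ∧ μ y = σ y) {c : Fin n} (hc : c ∈ C)
    (h1 : i' ≤ u c) (h2 : en (NWs u i j ∪ C) σ c ≤ j')
    (hG : ∀ y ∈ pth (NWs u i j ∪ C) σ c, y ∈ G) (hF : ∀ y ∈ pth (NWs u i j ∪ C) σ c, y ∈ F) :
    Free u (NWs u i j ∪ C) σ i' j' G F μ c := by
  have hen := en_notMem hC hR hσ hc
  refine ⟨h1, h2, ?_⟩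
  intro y
  induction y using WellFoundedGT.induction with
  | ind y ih =>
    intro hy
    refine ⟨hG y hy, hF y hy, ?_⟩
    by_contra hcon
    obtain ⟨h3, h4⟩ := hsub y (hG y hy) hcon
    have hne : y ≠ en (NWs u i j ∪ C) σ c := fun h5 => hen (h5 ▸ h3)
    obtain ⟨-, h5, h6, -⟩ := pth_sub hσ hy hne
    have h7 := (ih (σ y) h6 h5).2.2
    have h8 : y = σ y := hL.mt.inj (hG y hy) (hG _ h5) (by rw [h4, h7])
    exact absurd h6 (by rw [← h8]; exact lt_irrefl _)

open Classical in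
/-- the count on one path -/
theorem count_path (hC : C ⊆ SWs u i j) (hR : R ⊆ NEs u i j) (hi : i' < i) (hj : j < j')
    (hσ : Mt u (NWs u i j ∪ C) (NWs u i j ∪ R) σ) (hL : Ldr u v i' j' G F μ)
    (hsub : ∀ y ∈ G, μ y ≠ y → y ∈ NWs u i j ∪ C ∧ μ y = σ y) {c : Fin n} (hc : c ∈ C) :
    (G ∩ pth (NWs u i j ∪ C) σ c).card +
        (if i' ≤ u c ∧ en (NWs u i j ∪ C) σ c ≤ j' ∧ ¬ Free u (NWs u i j ∪ C) σ i' j' G F μ c
          then 1 else 0) ≤
      (NWs u i' j' ∩ pth (NWs u i j ∪ C) σ c).card +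
        (if Full u (NWs u i j ∪ C) σ i' j' G μ c then 1 else 0) := by
  set V := pth (NWs u i j ∪ C) σ c with hV
  set r := en (NWs u i j ∪ C) σ c with hr
  have hcm := mem_SWs.1 (hC hc)
  have hrm := mem_NEs.1 (hR (en_R hC hR hσ hc))
  rw [← hr] at hrm
  have hcV : c ∈ V := self_mem hσ c
  have hrV : r ∈ V := en_mem hσ c
  have hcr : c ≠ r := by
    intro h
    rw [h] at hcm
    exact absurd hrm.1 (not_lt.2 hcm.1)
  have hN : ∀ x ∈ V, x ≠ c → x ≠ r → x ∈ NWs u i' j' := by
    intro x hx h1 h2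
    have h3 := mem_NWs.1 (pth_N hC hR hσ hc hx h1 h2)
    exact mem_NWs.2 ⟨h3.1.trans hj.le, hi.le.trans h3.2⟩
  have hcard := card_inter_pth hC hR hσ hL.mt hsub hc
  rw [← hV] at hcard
  have hk1 : (V.erase r).card = V.card - 1 := Finset.card_erase_of_mem hrV
  have hk2 : (V.erase c).card = V.card - 1 := Finset.card_erase_of_mem hcV
  have hk3 : ((V.erase r).erase c).card = V.card - 2 := by
    rw [Finset.card_erase_of_mem (Finset.mem_erase.2 ⟨hcr, hcV⟩), hk1]
    omega
  have hkV : 2 ≤ V.card := by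
    have h1 : ({c, r} : Finset (Fin n)) ⊆ V := by
      intro x hx
      rcases Finset.mem_insert.1 hx with h2 | h2
      · rw [h2]; exact hcV
      · rw [Finset.mem_singleton.1 h2]; exact hrV
    have h2 := Finset.card_le_card h1
    rwa [Finset.card_pair hcr] at h2
  have hGV : (G ∩ V).card ≤ V.card := Finset.card_le_card Finset.inter_subset_right
  have hGr : j' < r → G ∩ V ⊆ V.erase r := by
    intro h x hx
    rw [Finset.mem_inter] at hx
    refine Finset.mem_erase.2 ⟨?_, hx.2⟩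
    rintro rfl
    exact absurd (hL.hG _ hx.1) (not_le.2 h)
  have hFc : u c < i' → F ∩ V ⊆ V.erase c := by
    intro h x hx
    rw [Finset.mem_inter] at hx
    refine Finset.mem_erase.2 ⟨?_, hx.2⟩
    rintro rfl
    exact absurd (hL.hF _ hx.1) (not_le.2 h)
  by_cases h1 : u c < i'
  · have hFk := Finset.card_le_card (hFc h1)
    rw [hk2, ← hcard] at hFk
    rw [if_neg (fun h => absurd h1 (not_lt.2 h.1))]
    by_cases h2 : j' < r
    · -- type 11
      have hGk := Finset.card_le_card (hGr h2)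
      rw [hk1] at hGk
      have hNk : V.card - 2 ≤ (NWs u i' j' ∩ V).card := by
        rw [← hk3]
        apply Finset.card_le_card
        intro x hx
        rw [Finset.mem_erase, Finset.mem_erase] at hx
        exact Finset.mem_inter.2 ⟨hN x hx.2.2 hx.1 hx.2.1, hx.2.2⟩
      by_cases h3 : Full u (NWs u i j ∪ C) σ i' j' G μ c
      · rw [if_pos h3]
        omega
      · rw [if_neg h3]
        have h4 : (G ∩ V).card ≠ V.card - 1 := by
          intro h5
          apply h3
          have h6 : G ∩ V = V.erase r := Finset.eq_of_subset_of_card_le (hGr h2) (by rw [hk1, h5])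
          apply full_of_sub hC hR hσ hL hsub hc h1 h2
          intro y hy hne
          have h7 : y ∈ V.erase r := Finset.mem_erase.2 ⟨hne, hy⟩
          rw [← h6] at h7
          exact (Finset.mem_inter.1 h7).1
        omega
    · have hNk : V.card - 1 ≤ (NWs u i' j' ∩ V).card := by
        rw [← hk2]
        apply Finset.card_le_card
        intro x hx
        rw [Finset.mem_erase] at hx
        refine Finset.mem_inter.2 ⟨?_, hx.2⟩
        by_cases h4 : x = r
        · rw [h4]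
          exact mem_NWs.2 ⟨not_lt.1 h2, hi.le.trans hrm.2⟩
        · exact hN x hx.2 hx.1 h4
      rw [if_neg (fun h => h2 h.2.1)]
      omega
  · rw [if_neg (fun h : Full u (NWs u i j ∪ C) σ i' j' G μ c => h1 h.1)]
    by_cases h2 : j' < r
    · have hGk := Finset.card_le_card (hGr h2)
      rw [hk1] at hGk
      have hNk : V.card - 1 ≤ (NWs u i' j' ∩ V).card := by
        rw [← hk1]
        apply Finset.card_le_card
        intro x hx
        rw [Finset.mem_erase] at hx
        refine Finset.mem_inter.2 ⟨?_, hx.2⟩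
        by_cases h4 : x = c
        · rw [h4]
          exact mem_NWs.2 ⟨hcm.1.trans hj.le, not_lt.1 h1⟩
        · exact hN x hx.2 h4 hx.1
      rw [if_neg (fun h => absurd h2 (not_lt.2 h.2.1))]
      omega
    · have hNk : V.card ≤ (NWs u i' j' ∩ V).card := by
        apply Finset.card_le_card
        intro x hx
        refine Finset.mem_inter.2 ⟨?_, hx⟩
        by_cases h4 : x = c
        · rw [h4]
          exact mem_NWs.2 ⟨hcm.1.trans hj.le, not_lt.1 h1⟩
        · by_cases h5 : x = r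
          · rw [h5]
            exact mem_NWs.2 ⟨not_lt.1 h2, hi.le.trans hrm.2⟩
          · exact hN x hx h4 h5
      by_cases h3 : Free u (NWs u i j ∪ C) σ i' j' G F μ c
      · rw [if_neg (fun h => h.2.2 h3)]
        omega
      · rw [if_pos ⟨not_lt.1 h1, not_lt.1 h2, h3⟩]
        have h4 : (G ∩ V).card ≠ V.card := by
          intro h5
          apply h3
          have h6 : G ∩ V = V := Finset.eq_of_subset_of_card_le Finset.inter_subset_right h5.ge
          have h7 : F ∩ V = V :=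
            Finset.eq_of_subset_of_card_le Finset.inter_subset_right (by rw [← hcard, h5])
          apply free_of_sub hC hR hσ hL hsub hc (not_lt.1 h1) (not_lt.1 h2)
          · intro y hy
            have h8 : y ∈ G ∩ V := by rw [h6]; exact hy
            exact (Finset.mem_inter.1 h8).1
          · intro y hy
            have h8 : y ∈ F ∩ V := by rw [h7]; exact hy
            exact (Finset.mem_inter.1 h8).1
        omega

end Pool.Agent.H94.KL
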